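import Pool.Agent.H39.Reid.Retract

/-!
The group `D` does not have the invariant of `QProp`, hence it is not in the Reid class.
-/

namespace Pool.Agent.H39.Reid

theorem eq_zero_of_pow_dvd (t : ℤ) (h : ∀ n : ℕ, (2 : ℤ) ^ n ∣ t) : t = 0 := by
  by_contra h5
  have h4 : (2 : ℕ) ^ t.natAbs ∣ t.natAbs := by
    have := Int.natAbs_dvd_natAbs.2 (h t.natAbs)
    simpa [Int.natAbs_pow] using this
  have h6 : 0 < t.natAbs := Int.natAbs_pos.2 h5
  exact absurd (Nat.le_of_dvd h6 h4) (not_le.2 (Nat.lt_two_pow_self))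

/-- Infinite sums in `V m`. -/
theorem sumHom (m : ℕ) (x : ℕ → V m) (hx : ∀ j β, lastB β < j → (x j : M) β = 0) :
    ∃ Θ : (ℕ → ℤ) →+ V m, ∀ j, Θ (Pi.single j 1) = x j := by
  have hmem : ∀ a : ℕ → ℤ,
      (fun β => ∑ j ∈ Finset.range (lastB β + 1), a j * (x j : M) β) ∈ V m := by
    intro a
    rw [mem_V]
    constructor
    · intro β hβ
      obtain ⟨j, _, hj⟩ := Finset.exists_ne_zero_of_sum_ne_zero hβ
      exact (mem_V.1 (x j).2).1 β (right_ne_zero_of_mul hj)
    · intro n
      refine Set.Finite.subset (Set.Finite.biUnion (Set.finite_Iic n)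
        (t := fun j => {β | lastB β ≤ n ∧ (x j : M) β ≠ 0})
        fun j _ => (mem_V.1 (x j).2).2 n) ?_
      rintro β ⟨hn, hβ⟩
      obtain ⟨j, hj, hj'⟩ := Finset.exists_ne_zero_of_sum_ne_zero hβ
      rw [Finset.mem_range] at hj
      exact Set.mem_biUnion (x := j) (Set.mem_Iic.2 (by omega)) ⟨hn, right_ne_zero_of_mul hj'⟩
  refine ⟨
    { toFun := fun a => ⟨_, hmem a⟩
      map_zero' := Subtype.ext (funext fun β => by simp)
      map_add' := fun a a' => Subtype.ext (funext fun β => by
        simp [add_mul, Finset.sum_add_distrib]) }, fun j => ?_⟩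
  refine Subtype.ext (funext fun β => ?_)
  change ∑ l ∈ Finset.range (lastB β + 1), (Pi.single j (1 : ℤ) : ℕ → ℤ) l * (x l : M) β = _
  by_cases hj : j ≤ lastB β
  · rw [Finset.sum_eq_single j]
    · rw [Pi.single_eq_same, one_mul]
    · intro l _ hne
      rw [Pi.single_eq_of_ne hne, zero_mul]
    · intro h
      exact absurd (Finset.mem_range.2 (by omega)) h
  · rw [hx j β (not_le.1 hj), Finset.sum_eq_zero]
    intro l hl
    rw [Finset.mem_range] at hl
    rw [Pi.single_eq_of_ne (by omega), zero_mul]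

def embD : D →+ (ℕ × B → ℤ) where
  toFun y := fun p => y.1 p.1 p.2
  map_zero' := rfl
  map_add' _ _ := rfl

theorem embD_inj : Function.Injective embD := by
  intro y y' h
  refine Subtype.ext (funext fun t => funext fun β => ?_)
  exact congrFun h (t, β)

theorem exists_code : ∃ c : D → (ℕ → Bool), Function.Injective c := by
  obtain ⟨e, he⟩ := exists_surjective_nat ((ℕ × B) × ℤ)
  refine ⟨fun y n => decide (embD y (e n).1 = (e n).2), fun y y' h => embD_inj ?_⟩
  funext p
  obtain ⟨n, hn⟩ := he (p, embD y p)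
  have h1 := congrFun h n
  simp only [hn, decide_true] at h1
  exact (of_decide_eq_true h1.symm).symm

noncomputable def sys : Sys D where
  r m := (inc m).comp (tau m)
  mono m y h := D_mono m y h
  ex y := D_ex y
  red := red_of_inj embD embD_inj (red_pi _)
  code := Classical.choose exists_code
  code_inj := Classical.choose_spec exists_code

theorem sys_r (m : ℕ) (y : D) : sys.r m y = inc m (tau m y) := rfl

theorem cont (m : ℕ) (ε : V m →+ V m) (n : ℕ) : ∃ n', ∀ x : V m,
    (∀ β, lastB β < n' → (x : M) β = 0) → ∀ β, lastB β < n → (ε x : M) β = 0 := by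
  classical
  by_contra hcon
  push Not at hcon
  choose x hx hx' using hcon
  obtain ⟨Θ, hΘ⟩ := sumHom m x (fun j β h => hx j β h)
  let f : V m →+ (B → ℤ) :=
    { toFun := fun y β => if lastB β < n then (ε y : M) β else 0
      map_zero' := by
        funext β
        simp
      map_add' := by
        intro y y'
        funext β
        simp only [map_add, AddSubgroup.coe_add, Pi.add_apply]
        split_ifs <;> simp }
  have hf : ∀ y β, f y β = if lastB β < n then (ε y : M) β else 0 := fun _ _ => rfl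
  obtain ⟨j, hj⟩ := slender (red_pi B) (f.comp Θ)
    (Set.range (fun g : B →₀ ℤ => (g : B → ℤ))) (Set.countable_range _) (by
      intro a
      have hfin : (Function.support (f.comp Θ a)).Finite := by
        refine ((mem_V.1 (ε (Θ a)).2).2 n).subset ?_
        intro β hβ
        rw [Function.mem_support, AddMonoidHom.comp_apply, hf] at hβ
        split_ifs at hβ with h1
        · exact ⟨h1.le, hβ⟩
        · exact absurd rfl hβ
      exact ⟨Finsupp.ofSupportFinite _ hfin, Finsupp.ofSupportFinite_coe⟩)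
  rw [AddMonoidHom.comp_apply, hΘ] at hj
  obtain ⟨β, hβ, hβ'⟩ := hx' j
  have h1 := congrFun hj β
  rw [hf, if_pos hβ] at h1
  exact hβ' h1

theorem bad_finite (m N K : ℕ) : {β : B | (validL β.1 β.2.2 ∧ β.2.2.length = m) ∧
    lastB β ≤ N ∧ β.2.1 < K}.Finite := by
  induction m with
  | zero =>
    refine (((Set.finite_Iic N).prod (Set.finite_Iio K)).image
      (fun p : ℕ × ℕ => ((p.1, p.2, []) : B))).subset ?_
    rintro ⟨i, k, w⟩ ⟨⟨_, h⟩, h1, h2⟩
    cases w with
    | nil => exact ⟨(i, k), ⟨h1, h2⟩, rfl⟩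
    | cons v w => exact absurd h (by simp)
  | succ m ih =>
    refine ((ih.prod (Set.finite_Iic N)).image
      (fun p : B × ℕ => ((p.1.1, p.1.2.1, p.2 :: p.1.2.2) : B))).subset ?_
    rintro ⟨i, k, w⟩ ⟨⟨h0, h⟩, h1, h2⟩
    cases w with
    | nil => exact absurd h (by simp)
    | cons v w =>
      refine ⟨((i, k, w), v), ⟨⟨⟨h0.2, by simpa using h⟩, le_trans h0.1 h1, h2⟩, h1⟩, rfl⟩

theorem single_mem {m : ℕ} (β : B) (h : validL β.1 β.2.2 ∧ β.2.2.length = m) :
    (Pi.single β 1 : M) ∈ V m := by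
  classical
  rw [mem_V]
  have h1 : ∀ β', (Pi.single β (1 : ℤ) : M) β' ≠ 0 → β' = β := by
    intro β' hβ'
    by_contra hne
    exact hβ' (Pi.single_eq_of_ne hne _)
  constructor
  · intro β' hβ'
    rw [h1 β' hβ']
    exact h
  · intro n
    refine (Set.finite_singleton β).subset ?_
    rintro β' ⟨_, hβ'⟩
    exact h1 β' hβ'

/-- Unit vectors. -/
def ev {m : ℕ} (β : B) (h : validL β.1 β.2.2 ∧ β.2.2.length = m) : V m :=
  ⟨Pi.single β 1, single_mem β h⟩

theorem lastL_replicate (i m : ℕ) : lastL i (List.replicate m i) = i := by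
  cases m <;> rfl

theorem phi_pow_single_ne (i k k' : ℕ) (hk : k' ≠ k) (m : ℕ) :
    ((phi ^ m) (Pi.single (i, k, []) 1)) (i, k', List.replicate m i) = 0 := by
  induction m with
  | zero =>
    change (Pi.single (i, k, []) 1 : M) (i, k', []) = 0
    exact Pi.single_eq_of_ne (by simpa using hk) _
  | succ m ih =>
    rw [pow_succ', End_mul, phi_apply, List.replicate_succ, phiF_cons, ih, mul_zero, ite_self]

theorem phi_pow_single_self (i k : ℕ) (m : ℕ) :
    ((phi ^ m) (Pi.single (i, k, []) 1)) (i, k, List.replicate m i) ≠ 0 := by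
  induction m with
  | zero =>
    change (Pi.single (i, k, []) 1 : M) (i, k, []) ≠ 0
    rw [Pi.single_eq_same]
    exact one_ne_zero
  | succ m ih =>
    rw [pow_succ', End_mul, phi_apply, List.replicate_succ, phiF_cons, lastL_replicate,
      if_pos le_rfl]
    exact mul_ne_zero (wt_ne_zero _ _ _) ih

theorem exists_kernel (t : ℕ) (β : Type) [Fintype β] (hβ : Fintype.card β = t)
    (A : β → Fin (t + 1) → ℤ) : ∃ a : Fin (t + 1) → ℤ, a ≠ 0 ∧ ∀ b, ∑ j, a j * A b j = 0 := by
  let L : (Fin (t + 1) → ℤ) →ₗ[ℤ] (β → ℤ) :=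
    { toFun := fun a b => ∑ j, a j * A b j
      map_add' := by
        intro a a'
        funext b
        simp [add_mul, Finset.sum_add_distrib]
      map_smul' := by
        intro c a
        funext b
        simp [Finset.mul_sum, mul_assoc] }
  by_contra hcon
  push Not at hcon
  have hinj : Function.Injective L := by
    rw [← LinearMap.ker_eq_bot, LinearMap.ker_eq_bot']
    intro a ha
    by_contra h0
    obtain ⟨b, hb⟩ := hcon a h0
    exact hb (congrFun ha b)
  have h1 := LinearMap.finrank_le_finrank_of_injective hinj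
  rw [Module.finrank_fintype_fun_eq_card, Module.finrank_fintype_fun_eq_card, Fintype.card_fin,
    hβ] at h1
  omega

theorem even_of_fix (m n' : ℕ) (hm : 1 ≤ m) (z : M) (hz : z = sF (phiF z)) (β : B)
    (hβ : β.2.2.length = m) (h1 : lastB β < n') (h2 : m + 1 ≤ β.2.1) (h3 : n' ≤ β.2.1) :
    (2 : ℤ) ∣ z β := by
  obtain ⟨i, k, w⟩ := β
  cases w with
  | nil => exact absurd hβ (by simp; omega)
  | cons v w =>
    have hw : w.length + 1 = m := by simpa using hβ
    have hv : v < n' := h1
    simp only at h2 h3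
    rw [hz, sF_cons]
    split_ifs with h4
    · rw [phiF_cons]
      split_ifs with h5
      · refine Dvd.dvd.mul_right (two_dvd_wt _ _ _ ?_ ?_) _
        · rw [List.length_cons]
          omega
        · have := nxt_le k (w.length + 1) v
          omega
      · exact dvd_zero _
    · exact dvd_zero _

theorem not_Q : ¬ Q sys D := by
  classical
  intro hQ
  have he : ∀ i k : ℕ, validL ((i, k, []) : B).1 ((i, k, []) : B).2.2 ∧
      ((i, k, []) : B).2.2.length = 0 := fun i k => ⟨trivial, rfl⟩
  obtain ⟨i₀, m₀, π, hπ, hr, hfix⟩ := hQ (AddMonoidHom.id D) Function.injective_id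
    (fun i k => inc 0 (ev (i, k, []) (he i k))) (by
      intro κ
      obtain ⟨Θ, hΘ⟩ := sumHom 0 (fun j => ev (j, κ j, []) (he j (κ j))) (by
        intro j β hβ
        refine Pi.single_eq_of_ne ?_ _
        rintro rfl
        exact lt_irrefl _ hβ)
      exact ⟨(inc 0).comp Θ, fun j => by rw [AddMonoidHom.comp_apply, hΘ]⟩)
  obtain ⟨m, hm1, hmr⟩ : ∃ m, 1 ≤ m ∧ ∀ y, inc m (tau m (π y)) = π y :=
    ⟨m₀ + 1, by omega, fun y => sys.mono m₀ _ (hr y)⟩
  let ε : V m →+ V m := (tau m).comp (π.comp (inc m))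
  have hε : ∀ x, ε x = tau m (π (inc m x)) := fun _ => rfl
  have hε1 : ∀ x, inc m (ε x) = π (inc m x) := fun x => hmr _
  have hε2 : ∀ x, ε (ε x) = ε x := by
    intro x
    rw [hε (ε x), hε1, hπ]
    rfl
  have hε3 : ∀ x, (ε x : M) = sF (phiF (ε x)) := by
    intro x
    rw [← tau_inc_self, hε1]
    rfl
  let z : ℕ → V m := fun k => tau m (inc 0 (ev (i₀, k, []) (he i₀ k)))
  have hz : ∀ k, ε (z k) = z k := by
    intro k
    have h1 := hfix i₀ le_rfl k
    have h2 := hmr (inc 0 (ev (i₀, k, []) (he i₀ k)))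
    rw [h1] at h2
    change tau m (π (inc m (tau m _))) = _
    rw [h2, h1]
  have hzv : ∀ k, (z k : M) = (phi ^ m) (Pi.single (i₀, k, []) 1) := by
    intro k
    change iota 0 _ m = _
    rw [iota_lt (by omega), Nat.sub_zero]
    rfl
  obtain ⟨n', hn'⟩ := cont m ε (i₀ + 1)
  have hfin := bad_finite m n' (max (m + 1) n')
  let Bd : Finset B := hfin.toFinset
  have hBd : ∀ β, β ∈ Bd ↔ (validL β.1 β.2.2 ∧ β.2.2.length = m) ∧ lastB β ≤ n' ∧
      β.2.1 < max (m + 1) n' := by
    intro β
    rw [Set.Finite.mem_toFinset]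
    rfl
  let bt : ℕ → B := fun j => (i₀, j, List.replicate m i₀)
  obtain ⟨a, ha, hker⟩ := exists_kernel Bd.card Bd (Fintype.card_coe Bd)
    (fun β j => (ε (ev β.1 ((hBd β.1).1 β.2).1) : M) (bt j))
  let Λ : V m →+ ℤ :=
    { toFun := fun x => ∑ j : Fin (Bd.card + 1), a j * (ε x : M) (bt j)
      map_zero' := by simp
      map_add' := by
        intro x y
        simp [mul_add, Finset.sum_add_distrib] }
  have hΛ : ∀ x, Λ x = ∑ j : Fin (Bd.card + 1), a j * (ε x : M) (bt j) := fun _ => rfl
  have hΛε : ∀ x, Λ (ε x) = Λ x := by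
    intro x
    rw [hΛ, hΛ, hε2]
  have hΛe : ∀ β : Bd, Λ (ev β.1 ((hBd β.1).1 β.2).1) = 0 := hker
  have hΛu : ∀ u : V m, (∀ β, lastB β < n' → (u : M) β = 0) → Λ u = 0 := by
    intro u hu
    rw [hΛ]
    refine Finset.sum_eq_zero fun j _ => ?_
    rw [hn' u hu (bt j), mul_zero]
    change lastL i₀ (List.replicate m i₀) < i₀ + 1
    rw [lastL_replicate]
    omega
  have hdvd : ∀ h : ℕ, ∀ x : V m, (2 : ℤ) ^ h ∣ Λ x := by
    intro h
    induction h with
    | zero => intro x; simp
    | succ h ih =>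
      intro x
      rw [← hΛε]
      obtain ⟨y, hy⟩ : ∃ y : V m, ∀ β, (y : M) β =
          if lastB β < n' ∧ β ∉ Bd then (ε x : M) β / 2 else 0 := by
        refine ⟨⟨fun β => if lastB β < n' ∧ β ∉ Bd then (ε x : M) β / 2 else 0, ?_⟩,
          fun _ => rfl⟩
        obtain ⟨h1, h2⟩ := mem_V.1 (ε x).2
        have h3 : ∀ β, (if lastB β < n' ∧ β ∉ Bd then (ε x : M) β / 2 else 0) ≠ 0 →
            (ε x : M) β ≠ 0 := by
          intro β hβ h4
          rw [h4] at hβ
          simp at hβ
        rw [mem_V]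
        refine ⟨fun β hβ => h1 β (h3 β hβ), fun n => (h2 n).subset ?_⟩
        rintro β ⟨hn, hβ⟩
        exact ⟨hn, h3 β hβ⟩
      let v : V m := ∑ β : Bd, (ε x : M) β.1 • ev β.1 ((hBd β.1).1 β.2).1
      have hv : ∀ β, (v : M) β = if β ∈ Bd then (ε x : M) β else 0 := by
        intro β
        have h1 : (v : M) = ∑ β : Bd, (ε x : M) β.1 • (Pi.single β.1 (1 : ℤ) : M) := by
          change ((∑ β : Bd, (ε x : M) β.1 • ev β.1 ((hBd β.1).1 β.2).1 : V m) : M) = _
          rw [AddSubgroup.val_finsetSum]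
          rfl
        rw [h1, Finset.sum_apply]
        split_ifs with h2
        · rw [Finset.sum_eq_single ⟨β, h2⟩]
          · simp
          · intro β' _ hne
            rw [Pi.smul_apply, Pi.single_eq_of_ne, smul_zero]
            intro h3
            exact hne (Subtype.ext h3.symm)
          · intro h3
            exact absurd (Finset.mem_univ _) h3
        · refine Finset.sum_eq_zero fun β' _ => ?_
          rw [Pi.smul_apply, Pi.single_eq_of_ne, smul_zero]
          rintro rfl
          exact h2 β'.2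
      have hΛv : Λ v = 0 := by
        rw [map_sum]
        refine Finset.sum_eq_zero fun β _ => ?_
        rw [map_zsmul, hΛe, smul_zero]
      have hu : Λ (ε x - (2 : ℤ) • y - v) = 0 := by
        refine hΛu _ fun β hβ => ?_
        have h1 : ((ε x - (2 : ℤ) • y - v : V m) : M) β =
            (ε x : M) β - 2 * (y : M) β - (v : M) β := rfl
        rw [h1, hy, hv]
        by_cases h2 : β ∈ Bd
        · rw [if_neg (fun h3 => h3.2 h2), if_pos h2]
          ring
        · rw [if_pos ⟨hβ, h2⟩, if_neg h2, sub_zero]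
          by_cases h3 : (ε x : M) β = 0
          · rw [h3]
            rfl
          · have h4 := (mem_V.1 (ε x).2).1 β h3
            have h5 : max (m + 1) n' ≤ β.2.1 := by
              by_contra h6
              exact h2 ((hBd β).2 ⟨h4, hβ.le, not_le.1 h6⟩)
            have h6 := even_of_fix m n' hm1 (ε x : M) (hε3 x) β h4.2 hβ
              (le_trans (le_max_left _ _) h5) (le_trans (le_max_right _ _) h5)
            rw [Int.mul_ediv_cancel' h6, sub_self]
      rw [map_sub, map_sub, hΛv, sub_zero, sub_eq_zero] at hu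
      rw [hu, map_zsmul, smul_eq_mul, pow_succ']
      exact mul_dvd_mul_left 2 (ih y)
  obtain ⟨j, hj⟩ := Function.ne_iff.1 ha
  have h0 : Λ (z j) = 0 := eq_zero_of_pow_dvd _ fun h => hdvd h _
  rw [hΛ, hz, Finset.sum_eq_single j] at h0
  · rw [hzv] at h0
    exact (mul_ne_zero hj (phi_pow_single_self i₀ j m)) h0
  · intro j' _ hne
    rw [hzv]
    rw [phi_pow_single_ne i₀ j j' (fun h => hne (Fin.ext h)) m, mul_zero]
  · intro h
    exact absurd (Finset.mem_univ _) h

theorem not_inReid_D : ¬ InReid (AddCommGrpCat.of D) := by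
  intro h
  refine not_Q (h (fun G => Q sys G) (Q_int sys) ?_ ?_ ?_)
  · rintro G H ⟨e⟩ hG
    exact Q_iso sys e hG
  · intro ι G hG
    exact Q_sum sys (fun i => G i) hG
  · intro ι G hG
    exact Q_prod sys (fun i => G i) hG

end Pool.Agent.H39.Reid
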