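import Pool.Agent.H39.Reid.Final

/-!
Independent second proof of the negative answer to the summand question for the Reid class; the
hand-in of record is `Pool/Agent/S03416.lean`.
-/

namespace Pool.Agent.H39.Reid

theorem main : ∃ A B : AddCommGrpCat.{0}, InReid (AddCommGrpCat.of (A × B)) ∧ ¬ InReid A :=
  ⟨_, _, reid_D_prod, not_inReid_D⟩

end Pool.Agent.H39.Reid
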