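import Pool.Agent.H39.Reid.Sep

/-!
A property of abelian groups, relative to a fixed group `D` with a sequence of endomorphisms, that
is preserved by isomorphisms, arbitrary direct sums and arbitrary direct products.
-/

namespace Pool.Agent.H39.Reid

/-- A group with a sequence of endomorphisms whose fixed groups increase and exhaust the group. -/
structure Sys (D : Type) [AddCommGroup D] where
  r : ℕ → D →+ D
  mono : ∀ m x, r m x = x → r (m + 1) x = x
  ex : ∀ x, ∃ m, r m x = x
  red : Red D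
  code : D → (ℕ → Bool)
  code_inj : Function.Injective code

theorem Sys.mono' {D : Type} [AddCommGroup D] (S : Sys D) {m n : ℕ} (hmn : m ≤ n) (x : D)
    (h : S.r m x = x) : S.r n x = x := by
  induction n, hmn using Nat.le_induction with
  | base => exact h
  | succ n _ ih => exact S.mono n x ih

/-- The infinite sums `∑ i, a i • x i (κ i)` exist for all choice functions `κ`. -/
def Summ {G : Type} [AddCommGroup G] (x : ℕ → ℕ → G) : Prop :=
  ∀ κ : ℕ → ℕ, ∃ θ : (ℕ → ℤ) →+ G, ∀ i, θ (Pi.single i 1) = x i (κ i)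

/-- The invariant. -/
def Q {D : Type} [AddCommGroup D] (S : Sys D) (G : Type) [AddCommGroup G] : Prop :=
  ∀ ι : G →+ D, Function.Injective ι → ∀ x : ℕ → ℕ → G, Summ x →
    ∃ (i₀ m : ℕ) (π : G →+ G), (∀ g, π (π g) = π g) ∧ (∀ g, S.r m (ι (π g)) = ι (π g)) ∧
      ∀ i ≥ i₀, ∀ k, π (x i k) = x i k

variable {D : Type} [AddCommGroup D] (S : Sys D)

theorem Q_int : Q S ℤ := by
  intro ι _ x _
  obtain ⟨m, hm⟩ := S.ex (ι 1)
  refine ⟨0, m, AddMonoidHom.id ℤ, fun _ => rfl, fun g => ?_, fun _ _ _ => rfl⟩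
  have h1 : ι g = g • ι 1 := by rw [← map_zsmul, smul_eq_mul, mul_one]
  rw [AddMonoidHom.id_apply, h1, map_zsmul, hm]

theorem Summ.comp {G H : Type} [AddCommGroup G] [AddCommGroup H] {x : ℕ → ℕ → G} (hx : Summ x)
    (f : G →+ H) : Summ (fun i k => f (x i k)) := by
  intro κ
  obtain ⟨θ, hθ⟩ := hx κ
  exact ⟨f.comp θ, fun i => by simp [hθ i]⟩

theorem Q_iso {G H : Type} [AddCommGroup G] [AddCommGroup H] (e : G ≃+ H) (h : Q S G) :
    Q S H := by
  intro ι hι x hx
  obtain ⟨i₀, m, π, h1, h2, h3⟩ := h (ι.comp e.toAddMonoidHom) (hι.comp e.injective)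
    (fun i k => e.symm (x i k)) (hx.comp e.symm.toAddMonoidHom)
  refine ⟨i₀, m, (e.toAddMonoidHom.comp π).comp e.symm.toAddMonoidHom, ?_, ?_, ?_⟩
  · intro g
    simp [h1]
  · intro g
    simpa using h2 (e.symm g)
  · intro i hi k
    simp [h3 i hi k]

theorem chase {I : Type} (G : I → Type) [∀ j, AddCommGroup (G j)] (hred : ∀ j, Red (G j))
    (x : ℕ → ℕ → DirectSum I G) (hx : Summ x) :
    ∃ (i₁ : ℕ) (J : Finset I), ∀ i ≥ i₁, ∀ k, ∀ j ∉ J, (x i k) j = 0 := by
  classical
  by_contra hcon
  push Not at hcon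
  let ev : (j : I) → DirectSum I G →+ G j := fun j => DFinsupp.evalAddMonoidHom j
  have hev : ∀ j g, ev j g = g j := fun _ _ => rfl
  let P : ℕ × ℕ × I × ℕ → Prop := fun p => (x p.1 p.2.1) p.2.2.1 ≠ 0
  have hH : ∀ p : ℕ × ℕ × I × ℕ, ∃ H : ℕ, P p → ∀ H' ≥ H, ∀ y : G p.2.2.1,
      (2 ^ H' : ℤ) • y ≠ (2 ^ p.2.2.2 : ℤ) • (x p.1 p.2.1) p.2.2.1 := by
    intro p
    by_cases hp : P p
    · obtain ⟨H, hH⟩ := hred p.2.2.1 _ hp p.2.2.2
      exact ⟨H, fun _ => hH⟩
    · exact ⟨0, fun h => absurd h hp⟩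
  choose H hH using hH
  obtain ⟨f, hfP, hfr⟩ := exists_seq_of_forall_finset_exists P
    (fun p q => p.1 < q.1 ∧ (x p.1 p.2.1) q.2.2.1 = 0 ∧ p.2.2.2 ≤ q.2.2.2 ∧
      ∀ y : G p.2.2.1, (2 ^ q.2.2.2 : ℤ) • y ≠ (2 ^ p.2.2.2 : ℤ) • (x p.1 p.2.1) p.2.2.1) (by
    intro s hs
    obtain ⟨i, hi, k, j, hj, hne⟩ := hcon (s.sup (fun p => p.1) + 1)
      (s.biUnion (fun p => DFinsupp.support (x p.1 p.2.1)))
    refine ⟨(i, k, j, s.sup (fun p => max p.2.2.2 (H p))), hne, fun p hp => ⟨?_, ?_, ?_, ?_⟩⟩
    · have := Finset.le_sup (f := fun p : ℕ × ℕ × I × ℕ => p.1) hp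
      simp only at this ⊢
      omega
    · by_contra h0
      exact hj (Finset.mem_biUnion.2 ⟨p, hp, DFinsupp.mem_support_iff.2 h0⟩)
    · have := Finset.le_sup (f := fun p : ℕ × ℕ × I × ℕ => max p.2.2.2 (H p)) hp
      exact le_trans (le_max_left _ _) this
    · refine hH p (hs p hp) _ ?_
      have := Finset.le_sup (f := fun p : ℕ × ℕ × I × ℕ => max p.2.2.2 (H p)) hp
      exact le_trans (le_max_right _ _) this)
  have hmono : StrictMono (fun n => (f n).1) := fun m n hmn => (hfr m n hmn).1
  have hinj : Function.Injective (fun n => (f n).1) := hmono.injective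
  obtain ⟨θ, hθ⟩ := hx (Function.extend (fun n => (f n).1) (fun n => (f n).2.1) 0)
  have hθ' : ∀ n, θ (Pi.single (f n).1 1) = x (f n).1 (f n).2.1 := by
    intro n
    have h1 := hinj.extend_apply (fun n => (f n).2.1) 0 n
    rw [hθ, h1]
  let a : ℕ → ℤ := Function.extend (fun n => (f n).1) (fun n => (2 : ℤ) ^ (f n).2.2.2) 0
  have ha : ∀ n, a (f n).1 = 2 ^ (f n).2.2.2 := fun n => hinj.extend_apply _ _ n
  have ha0 : ∀ l, (¬ ∃ n, (f n).1 = l) → a l = 0 := by
    intro l hl
    exact Function.extend_apply' _ _ _ hl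
  have key : ∀ n, (θ a) (f n).2.2.1 ≠ 0 := by
    intro n h0
    obtain ⟨y, hy⟩ := decomp ((ev (f n).2.2.1).comp θ) a ((f n).1 + 1)
      (2 ^ (f (n + 1)).2.2.2) (by
        intro l hl
        by_cases hl' : ∃ n', (f n').1 = l
        · obtain ⟨n', rfl⟩ := hl'
          have h1 : n < n' := hmono.lt_iff_lt.1 (by simpa using hl)
          rw [ha]
          refine pow_dvd_pow _ ?_
          rcases eq_or_lt_of_le (Nat.succ_le_of_lt h1) with h2 | h2
          · rw [← h2]
          · exact (hfr _ _ h2).2.2.1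
        · rw [ha0 l hl']
          exact dvd_zero _)
    rw [AddMonoidHom.comp_apply, hev, h0, Finset.sum_range_succ, Finset.sum_eq_zero, zero_add,
      AddMonoidHom.comp_apply, hθ', hev, ha] at hy
    · refine (hfr n (n + 1) (Nat.lt_succ_self n)).2.2.2 (-y) ?_
      rw [smul_neg]
      exact (eq_neg_of_add_eq_zero_left hy.symm).symm
    · intro l hl
      rw [Finset.mem_range] at hl
      by_cases hl' : ∃ n', (f n').1 = l
      · obtain ⟨n', rfl⟩ := hl'
        have h1 : n' < n := hmono.lt_iff_lt.1 (by simpa using hl)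
        rw [AddMonoidHom.comp_apply, hθ', hev, (hfr n' n h1).2.1, smul_zero]
      · rw [ha0 l hl', zero_smul]
  have hjinj : Function.Injective (fun n => (f n).2.2.1) := by
    intro m n hmn
    by_contra hne
    simp only at hmn
    rcases lt_or_gt_of_ne hne with h | h
    · have h1 := (hfr m n h).2.1
      rw [← hmn] at h1
      exact hfP m h1
    · have h1 := (hfr n m h).2.1
      rw [hmn] at h1
      exact hfP n h1
  have hfin : (DFinsupp.support (θ a) : Set I).Finite := Finset.finite_toSet _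
  exact Set.infinite_of_injective_forall_mem hjinj
    (fun n => Finset.mem_coe.2 (DFinsupp.mem_support_iff.2 (key n))) hfin

theorem Q_sum {I : Type} (G : I → Type) [∀ j, AddCommGroup (G j)] (h : ∀ j, Q S (G j)) :
    Q S (DirectSum I G) := by
  classical
  intro ι hι x hx
  have hinj : ∀ j, Function.Injective (ι.comp (DirectSum.of G j)) := fun j =>
    hι.comp (DirectSum.of_injective j)
  obtain ⟨i₁, J, hJ⟩ := chase G (fun j => red_of_inj _ (hinj j) S.red) x hx
  choose i₀ m π h1 h2 h3 using fun j => h j (ι.comp (DirectSum.of G j)) (hinj j)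
    (fun i k => (x i k) j) (hx.comp (DFinsupp.evalAddMonoidHom j))
  let p : DirectSum I G →+ DirectSum I G := ∑ j ∈ J,
    (DirectSum.of G j).comp ((π j).comp (DFinsupp.evalAddMonoidHom j))
  have hp : ∀ g, p g = ∑ j ∈ J, DirectSum.of G j (π j (g j)) := by
    intro g
    simp only [p, AddMonoidHom.finsetSum_apply, AddMonoidHom.comp_apply]
    rfl
  have hpj : ∀ g, ∀ j ∈ J, (p g) j = π j (g j) := by
    intro g j hj
    rw [hp, DirectSum.sum_apply, Finset.sum_eq_single j]
    · rw [DirectSum.of_eq_same]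
    · intro j' _ hne
      rw [DirectSum.of_eq_of_ne _ _ _ (Ne.symm hne)]
    · intro h
      exact absurd hj h
  refine ⟨max i₁ (J.sup i₀), J.sup m, p, ?_, ?_, ?_⟩
  · intro g
    rw [hp (p g), hp g]
    refine Finset.sum_congr rfl fun j hj => ?_
    rw [← hp g, hpj g j hj, h1]
  · intro g
    rw [hp, map_sum, map_sum]
    refine Finset.sum_congr rfl fun j hj => ?_
    exact S.mono' (Finset.le_sup (f := m) hj) _ (h2 j (g j))
  · intro i hi k
    rw [hp]
    have h4 : ∀ j ∈ J, DirectSum.of G j (π j ((x i k) j)) = DirectSum.of G j ((x i k) j) := by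
      intro j hj
      rw [h3 j i (le_trans (le_trans (Finset.le_sup (f := i₀) hj) (le_max_right _ _)) hi) k]
    rw [Finset.sum_congr rfl h4]
    refine DFinsupp.ext fun j => ?_
    rw [DirectSum.sum_apply]
    by_cases hj : j ∈ J
    · rw [Finset.sum_eq_single j]
      · rw [DirectSum.of_eq_same]
      · intro j' _ hne
        rw [DirectSum.of_eq_of_ne _ _ _ (Ne.symm hne)]
      · intro h
        exact absurd hj h
    · rw [hJ i (le_trans (le_max_left _ _) hi) k j hj, Finset.sum_eq_zero]
      intro j' hj'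
      rw [DirectSum.of_eq_of_ne]
      rintro rfl
      exact hj hj'

/-- Almost all factors of a product that maps into `D` land in one of the fixed groups. -/
theorem prodAux {I : Type} (G : I → Type) [∀ j, AddCommGroup (G j)] (ι : (∀ j, G j) →+ D)
    (hι : Function.Injective ι) :
    ∃ (J : Finset I) (m : ℕ), ∀ g : ∀ j, G j, (∀ j ∈ J, g j = 0) → S.r m (ι g) = ι g := by
  classical
  by_contra hcon
  push Not at hcon
  let F : Filter I :=
    { sets := {A | ∃ (J : Finset I) (m : ℕ), ∀ g : ∀ j, G j, (∀ j, j ∈ A ∨ j ∈ J → g j = 0) →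
        S.r m (ι g) = ι g}
      univ_sets := by
        refine ⟨∅, 0, fun g hg => ?_⟩
        have : g = 0 := funext fun j => hg j (Or.inl (Set.mem_univ j))
        rw [this, map_zero, map_zero]
      sets_of_superset := by
        rintro A B ⟨J, m, h⟩ hAB
        refine ⟨J, m, fun g hg => h g fun j hj => hg j ?_⟩
        rcases hj with hj | hj
        · exact Or.inl (hAB hj)
        · exact Or.inr hj
      inter_sets := by
        rintro A B ⟨J, m, h⟩ ⟨J', m', h'⟩
        refine ⟨J ∪ J', max m m', fun g hg => ?_⟩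
        have hsplit : g = (fun j => if j ∈ A then 0 else g j) +
            (fun j => if j ∈ A then g j else 0) := by
          funext j
          simp only [Pi.add_apply]
          split_ifs <;> simp
        have h1 := S.mono' (le_max_left m m') _ (h (fun j => if j ∈ A then 0 else g j) (by
          intro j hj
          split_ifs with hA
          · rfl
          · rcases hj with hj | hj
            · exact absurd hj hA
            · exact hg j (Or.inr (Finset.mem_union_left _ hj))))
        have h2 := S.mono' (le_max_right m m') _ (h' (fun j => if j ∈ A then g j else 0) (by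
          intro j hj
          split_ifs with hA
          · rcases hj with hj | hj
            · exact hg j (Or.inl ⟨hA, hj⟩)
            · exact hg j (Or.inr (Finset.mem_union_right _ hj))
          · rfl))
        rw [hsplit, map_add, map_add, h1, h2] }
  have hmem : ∀ A : Set I, A ∈ F ↔ ∃ (J : Finset I) (m : ℕ), ∀ g : ∀ j, G j,
      (∀ j, j ∈ A ∨ j ∈ J → g j = 0) → S.r m (ι g) = ι g := fun A => Iff.rfl
  have hne : F.NeBot := by
    rw [Filter.neBot_iff, Ne, ← Filter.empty_mem_iff_bot, hmem]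
    rintro ⟨J, m, h⟩
    obtain ⟨g, hg, hg'⟩ := hcon J m
    exact hg' (h g fun j hj => hg j (by simpa using hj))
  let U : Ultrafilter I := Ultrafilter.of F
  have hU : ∀ A, A ∈ F → A ∈ U := fun A hA => Ultrafilter.of_le F hA
  have hg0 : ∀ j, ∃ g0 : G j, g0 = 0 → ∀ y : G j, y = 0 := by
    intro j
    by_cases h : ∃ y : G j, y ≠ 0
    · obtain ⟨y, hy⟩ := h
      exact ⟨y, fun h0 => absurd h0 hy⟩
    · push Not at h
      exact ⟨0, fun _ => h⟩
  choose g0 hg0 using hg0
  let χ : I → ℕ → Bool := fun j => S.code (ι (Pi.single j (g0 j)))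
  have hb : ∀ l, ∃ b : Bool, {j | χ j l = b} ∈ U := by
    intro l
    rcases Ultrafilter.mem_or_compl_mem U {j | χ j l = true} with h | h
    · exact ⟨true, h⟩
    · refine ⟨false, ?_⟩
      have : {j | χ j l = true}ᶜ = {j | χ j l = false} := by
        ext j
        simp
      rwa [this] at h
  choose b hb using hb
  let C : ℕ → Set I := fun n => {j | g0 j ≠ 0 ∧ (∀ l < n, χ j l = b l) ∧ χ j ≠ b}
  have hT : {j | g0 j ≠ 0} ∈ U := by
    refine hU _ ((hmem _).2 ⟨∅, 0, fun g hg => ?_⟩)
    have : g = 0 := by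
      funext j
      by_cases h : g0 j = 0
      · exact hg0 j h (g j)
      · exact hg j (Or.inl h)
    rw [this, map_zero, map_zero]
  have hB : {j | χ j ≠ b} ∩ {j | g0 j ≠ 0} ∈ U := by
    by_cases hex : ∃ j, g0 j ≠ 0 ∧ χ j = b
    · obtain ⟨j₀, hj₀, hj₀'⟩ := hex
      have h1 : {j | j ≠ j₀} ∈ U := by
        refine hU _ ((hmem _).2 ⟨{j₀}, 0, fun g hg => ?_⟩)
        have : g = 0 := by
          funext j
          by_cases h : j = j₀
          · exact hg j (Or.inr (Finset.mem_singleton.2 h))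
          · exact hg j (Or.inl h)
        rw [this, map_zero, map_zero]
      refine Filter.mem_of_superset (Filter.inter_mem h1 hT) ?_
      rintro j ⟨hj, hj'⟩
      refine ⟨fun h2 => ?_, hj'⟩
      have h3 : ι (Pi.single j (g0 j)) = ι (Pi.single j₀ (g0 j₀)) :=
        S.code_inj (h2.trans hj₀'.symm)
      have h4 := congrFun (hι h3) j
      rw [Pi.single_eq_same, Pi.single_eq_of_ne hj] at h4
      exact hj' h4
    · push Not at hex
      refine Filter.mem_of_superset hT fun j hj => ⟨hex j hj, hj⟩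
  have hC : ∀ n, C n ∈ U := by
    intro n
    have h1 : (⋂ l ∈ Finset.range n, {j | χ j l = b l}) ∈ U :=
      (Filter.biInter_finset_mem _).2 fun l _ => hb l
    refine Filter.mem_of_superset (Filter.inter_mem h1 hB) ?_
    rintro j ⟨hj, hj1, hj2⟩
    refine ⟨hj2, fun l hl => ?_, hj1⟩
    simp only [Set.mem_iInter] at hj
    exact hj l (Finset.mem_range.2 hl)
  have hgs : ∀ n, ∃ g : ∀ j, G j, (∀ j, j ∉ C n → g j = 0) ∧ S.r n (ι g) ≠ ι g := by
    intro n
    have h1 : (C n)ᶜ ∉ F := fun h => (Ultrafilter.compl_notMem_iff.2 (hC n)) (hU _ h)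
    rw [hmem] at h1
    push Not at h1
    obtain ⟨g, hg, hg'⟩ := h1 ∅ n
    exact ⟨g, fun j hj => hg j (Or.inl hj), hg'⟩
  choose gs hgs hgs' using hgs
  have hN : ∀ j, ∃ N, ∀ n ≥ N, j ∉ C n := by
    intro j
    by_cases h1 : χ j = b
    · exact ⟨0, fun n _ hn => hn.2.2 h1⟩
    · obtain ⟨l, hl⟩ := Function.ne_iff.1 h1
      exact ⟨l + 1, fun n hn hn' => hl (hn'.2.1 l (by omega))⟩
  choose N hN using hN
  let θ : (ℕ → ℤ) →+ (∀ j, G j) :=
    { toFun := fun a j => ∑ n ∈ Finset.range (N j), a n • gs n j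
      map_zero' := by
        funext j
        simp
      map_add' := by
        intro a a'
        funext j
        simp [add_smul, Finset.sum_add_distrib] }
  have hθ : ∀ n, θ (Pi.single n 1) = gs n := by
    intro n
    funext j
    change ∑ n' ∈ Finset.range (N j), (Pi.single n (1 : ℤ) : ℕ → ℤ) n' • gs n' j = gs n j
    by_cases hn : n < N j
    · rw [Finset.sum_eq_single n]
      · rw [Pi.single_eq_same, one_smul]
      · intro n' _ hne
        rw [Pi.single_eq_of_ne hne, zero_smul]
      · intro h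
        exact absurd (Finset.mem_range.2 hn) h
    · rw [hgs n j (hN j n (not_lt.1 hn)), Finset.sum_eq_zero]
      intro n' hn'
      rw [Finset.mem_range] at hn'
      rw [Pi.single_eq_of_ne (by omega), zero_smul]
  obtain ⟨n, hn⟩ := lemmaP S.red (fun m => (S.r m).comp ι - ι)
    (fun m g hg => by
      rw [AddMonoidHom.sub_apply, AddMonoidHom.comp_apply, sub_eq_zero] at hg ⊢
      exact S.mono m _ hg)
    (fun g => by
      obtain ⟨m, hm⟩ := S.ex (ι g)
      exact ⟨m, by rw [AddMonoidHom.sub_apply, AddMonoidHom.comp_apply, sub_eq_zero, hm]⟩) θ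
  rw [hθ, AddMonoidHom.sub_apply, AddMonoidHom.comp_apply, sub_eq_zero] at hn
  exact hgs' n hn

theorem Q_prod {I : Type} (G : I → Type) [∀ j, AddCommGroup (G j)] (h : ∀ j, Q S (G j)) :
    Q S (∀ j, G j) := by
  classical
  intro ι hι x hx
  obtain ⟨J, m₀, hJ⟩ := prodAux S G ι hι
  let sg : (j : I) → G j →+ (∀ j, G j) := fun j => AddMonoidHom.single G j
  have hsg : ∀ j y, sg j y = Pi.single j y := fun _ _ => rfl
  have hinj : ∀ j, Function.Injective (ι.comp (sg j)) := fun j =>
    hι.comp (Pi.single_injective j)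
  choose i₀ m π h1 h2 h3 using fun j => h j (ι.comp (sg j)) (hinj j)
    (fun i k => (x i k) j) (hx.comp (Pi.evalAddMonoidHom G j))
  let p : (∀ j, G j) →+ (∀ j, G j) :=
    { toFun := fun g j => if j ∈ J then π j (g j) else g j
      map_zero' := by
        funext j
        simp
      map_add' := by
        intro g g'
        funext j
        simp only [Pi.add_apply, map_add]
        split_ifs <;> rfl }
  have hp : ∀ g j, p g j = if j ∈ J then π j (g j) else g j := fun _ _ => rfl
  refine ⟨J.sup i₀, max m₀ (J.sup m), p, ?_, ?_, ?_⟩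
  · intro g
    funext j
    rw [hp, hp]
    split_ifs
    · exact h1 j (g j)
    · rfl
  · intro g
    have hsplit : p g = (fun j => if j ∈ J then 0 else g j) + ∑ j ∈ J, sg j (π j (g j)) := by
      funext j
      rw [hp, Pi.add_apply, Finset.sum_apply]
      by_cases hj : j ∈ J
      · rw [if_pos hj, if_pos hj, zero_add, Finset.sum_eq_single j]
        · rw [hsg, Pi.single_eq_same]
        · intro j' _ hne
          rw [hsg, Pi.single_eq_of_ne (Ne.symm hne)]
        · intro h
          exact absurd hj h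
      · rw [if_neg hj, if_neg hj, Finset.sum_eq_zero, add_zero]
        intro j' hj'
        rw [hsg, Pi.single_eq_of_ne]
        rintro rfl
        exact hj hj'
    rw [hsplit, map_add, map_add, map_sum, map_sum]
    congr 1
    · refine S.mono' (le_max_left _ _) _ (hJ _ ?_)
      intro j hj
      simp [hj]
    · refine Finset.sum_congr rfl fun j hj => ?_
      exact S.mono' (le_trans (Finset.le_sup (f := m) hj) (le_max_right _ _)) _ (h2 j (g j))
  · intro i hi k
    funext j
    rw [hp]
    split_ifs with hj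
    · exact h3 j i (le_trans (Finset.le_sup (f := i₀) hj) hi) k
    · rfl

end Pool.Agent.H39.Reid
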