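import Pool.Agent.H39.Reid.System

/-!
The group `D` is a direct summand of a group in the Reid class.
-/

namespace Pool.Agent.H39.Reid

/-- Membership in the smallest isomorphism-closed class of abelian groups containing the integers
and closed under direct sums and products. -/
def InReid (A : AddCommGrpCat.{0}) : Prop :=
  ∀ C : AddCommGrpCat.{0} → Prop,
    C (AddCommGrpCat.of ℤ) →
    (∀ G H : AddCommGrpCat.{0}, Nonempty (G ≃+ H) → C G → C H) →
    (∀ (ι : Type) (G : ι → AddCommGrpCat.{0}), (∀ i, C (G i)) →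
      C (AddCommGrpCat.of (DirectSum ι (fun i => G i)))) →
    (∀ (ι : Type) (G : ι → AddCommGrpCat.{0}), (∀ i, C (G i)) →
      C (AddCommGrpCat.of ((i : ι) → G i))) →
    C A

theorem reid_int : InReid (AddCommGrpCat.of ℤ) := fun _ h _ _ _ => h

theorem reid_iso {G H : AddCommGrpCat.{0}} (e : G ≃+ H) (h : InReid G) : InReid H :=
  fun C h1 h2 h3 h4 => h2 G H ⟨e⟩ (h C h1 h2 h3 h4)

theorem reid_sum {ι : Type} (G : ι → AddCommGrpCat.{0}) (h : ∀ i, InReid (G i)) :
    InReid (AddCommGrpCat.of (DirectSum ι (fun i => G i))) :=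
  fun C h1 h2 h3 h4 => h3 ι G (fun i => h i C h1 h2 h3 h4)

theorem reid_prod {ι : Type} (G : ι → AddCommGrpCat.{0}) (h : ∀ i, InReid (G i)) :
    InReid (AddCommGrpCat.of ((i : ι) → G i)) :=
  fun C h1 h2 h3 h4 => h4 ι G (fun i => h i C h1 h2 h3 h4)

/-- Indices of words of length `m` with last letter `n`. -/
abbrev Idx (m n : ℕ) : Type :=
  {β : B // (validL β.1 β.2.2 ∧ β.2.2.length = m) ∧ lastB β = n}

open Classical in
/-- `V m` as a product of direct sums. -/
noncomputable def toV (m : ℕ) : (∀ n, DirectSum (Idx m n) (fun _ => ℤ)) →+ V m where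
  toFun g := ⟨fun β => if h : validL β.1 β.2.2 ∧ β.2.2.length = m then
      g (lastB β) ⟨β, h, rfl⟩ else 0, by
    constructor
    · intro β hβ
      by_contra h
      exact hβ (dif_neg h)
    · intro n
      refine Set.Finite.subset (Set.Finite.biUnion (Set.finite_Iic n) (t := fun n' =>
        Subtype.val '' ((DFinsupp.support (g n') : Set (Idx m n')))) fun n' _ =>
          (Finset.finite_toSet _).image _) ?_
      rintro β ⟨hn, hβ⟩
      by_cases h : validL β.1 β.2.2 ∧ β.2.2.length = m
      · beta_reduce at hβ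
        rw [dif_pos h] at hβ
        refine Set.mem_biUnion (x := lastB β) hn ⟨⟨β, h, rfl⟩, ?_, rfl⟩
        exact Finset.mem_coe.2 (DFinsupp.mem_support_iff.2 hβ)
      · exact absurd (dif_neg h) hβ⟩
  map_zero' := by
    refine Subtype.ext (funext fun β => ?_)
    change (if h : _ then _ else _) = (0 : ℤ)
    split_ifs <;> rfl
  map_add' := by
    intro g g'
    refine Subtype.ext (funext fun β => ?_)
    change (if h : _ then _ else _) = (if h : _ then _ else _) + (if h : _ then _ else (_ : ℤ))
    split_ifs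
    · rfl
    · rfl

open Classical in
theorem toV_apply (m : ℕ) (g : ∀ n, DirectSum (Idx m n) (fun _ => ℤ)) (β : B) :
    (toV m g : M) β = if h : validL β.1 β.2.2 ∧ β.2.2.length = m then
      g (lastB β) ⟨β, h, rfl⟩ else 0 := rfl

theorem toV_bij (m : ℕ) : Function.Bijective (toV m) := by
  classical
  constructor
  · intro g g' h
    funext n
    refine DFinsupp.ext fun β => ?_
    obtain ⟨β, hβ, rfl⟩ := β
    have h1 := congrFun (congrArg Subtype.val h) β
    rw [toV_apply, toV_apply, dif_pos hβ, dif_pos hβ] at h1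
    exact h1
  · rintro ⟨x, hx⟩
    obtain ⟨h1, h2⟩ := mem_V.1 hx
    have hfin : ∀ n, {β : Idx m n | x β.1 ≠ 0}.Finite := by
      intro n
      refine Set.Finite.of_finite_image ((h2 n).subset ?_) (f := Subtype.val)
        Subtype.val_injective.injOn
      rintro _ ⟨β, hβ, rfl⟩
      exact ⟨β.2.2.le, hβ⟩
    refine ⟨fun n => DFinsupp.mk (hfin n).toFinset (fun β => x β.1.1), ?_⟩
    refine Subtype.ext (funext fun β => ?_)
    rw [toV_apply]
    split_ifs with h
    · refine (DFinsupp.mk_apply).trans ?_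
      split_ifs with h3
      · rfl
      · rw [Set.Finite.mem_toFinset, Set.mem_ofPred_eq, not_not] at h3
        exact h3.symm
    · by_contra h3
      exact h (h1 β (Ne.symm h3))

theorem reid_V (m : ℕ) : InReid (AddCommGrpCat.of (V m)) :=
  reid_iso (G := AddCommGrpCat.of (∀ n, AddCommGrpCat.of (DirectSum (Idx m n)
      (fun _ => AddCommGrpCat.of ℤ))))
    (AddEquiv.ofBijective (toV m) (toV_bij m))
    (reid_prod _ fun _ => reid_sum _ fun _ => reid_int)

def phiV (t : ℕ) : V t →+ V (t + 1) where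
  toFun z := ⟨phi z.1, phi_mem z.2⟩
  map_zero' := Subtype.ext (map_zero phi)
  map_add' x y := Subtype.ext (map_add phi x.1 y.1)

theorem inc_phiV (t : ℕ) (z : V t) : inc (t + 1) (phiV t z) = inc t z :=
  Subtype.ext (iota_phi t z.1)

theorem tau_inc_next (t : ℕ) (z : V t) : tau (t + 1) (inc t z) = phiV t z :=
  Subtype.ext (iota_next t z.1)

/-- Coordinates of the section. -/
def dd : (t : ℕ) → D →+ V t
  | 0 => tau 0
  | t + 1 => tau (t + 1) - (phiV t).comp (tau t)

theorem D_ex_large (y : D) : ∃ N, ∀ m ≥ N, inc m (tau m y) = y := by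
  obtain ⟨N, hN⟩ := D_ex y
  refine ⟨N, fun m hm => ?_⟩
  induction m, hm using Nat.le_induction with
  | base => exact hN
  | succ m _ ih => exact D_mono m y ih

theorem dd_eq_zero (y : D) (t : ℕ) (h : inc t (tau t y) = y) : dd (t + 1) y = 0 := by
  change tau (t + 1) y - phiV t (tau t y) = 0
  rw [sub_eq_zero, ← tau_inc_next, h]

theorem sum_dd (y : D) (N : ℕ) :
    ∑ t ∈ Finset.range (N + 1), inc t (dd t y) = inc N (tau N y) := by
  induction N with
  | zero => simp [dd]
  | succ N ih =>
    rw [Finset.sum_range_succ, ih]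
    have h1 : dd (N + 1) y = tau (N + 1) y - phiV N (tau N y) := rfl
    rw [h1, map_sub, inc_phiV]
    abel

noncomputable def NN (y : D) : ℕ := Classical.choose (D_ex_large y)

theorem NN_spec (y : D) : ∀ m ≥ NN y, inc m (tau m y) = y := Classical.choose_spec (D_ex_large y)

abbrev GG : Type := DirectSum ℕ (fun t => V t)

noncomputable def sigmaF (y : D) : GG :=
  ∑ t ∈ Finset.range (NN y + 1), DirectSum.of (fun t => V t) t (dd t y)

theorem sigmaF_apply (y : D) (t : ℕ) : sigmaF y t = dd t y := by
  classical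
  rw [sigmaF, DirectSum.sum_apply]
  by_cases ht : t < NN y + 1
  · rw [Finset.sum_eq_single t]
    · rw [DirectSum.of_eq_same]
    · intro t' _ hne
      rw [DirectSum.of_eq_of_ne _ _ _ (Ne.symm hne)]
    · intro h
      exact absurd (Finset.mem_range.2 ht) h
  · rw [Finset.sum_eq_zero]
    · obtain ⟨t', rfl⟩ : ∃ t', t = t' + 1 := ⟨t - 1, by omega⟩
      rw [dd_eq_zero y t' (NN_spec y t' (by omega))]
    · intro t' ht'
      rw [Finset.mem_range] at ht'
      rw [DirectSum.of_eq_of_ne _ _ _ (by omega)]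

noncomputable def sigma : D →+ GG where
  toFun := sigmaF
  map_zero' := by
    refine DFinsupp.ext fun t => ?_
    rw [sigmaF_apply, map_zero]
    rfl
  map_add' x y := by
    refine DFinsupp.ext fun t => ?_
    have h : ∀ g g' : GG, (g + g') t = g t + g' t := fun _ _ => rfl
    rw [h, sigmaF_apply, sigmaF_apply, sigmaF_apply, map_add]

noncomputable def tauG : GG →+ D := DirectSum.toAddMonoid (fun t => inc t)

theorem tauG_sigma (y : D) : tauG (sigma y) = y := by
  change tauG (sigmaF y) = y
  rw [sigmaF, map_sum]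
  simp only [tauG, DirectSum.toAddMonoid_of]
  rw [sum_dd, NN_spec y _ le_rfl]

/-- A retract is a direct factor. -/
def retractIso {G D : Type} [AddCommGroup G] [AddCommGroup D] (σ : D →+ G) (τ : G →+ D)
    (h : ∀ y, τ (σ y) = y) : G ≃+ (D × τ.ker) where
  toFun g := (τ g, ⟨g - σ (τ g), by
    rw [AddMonoidHom.mem_ker, map_sub, h, sub_self]⟩)
  invFun p := σ p.1 + p.2.1
  left_inv g := by simp
  right_inv := by
    rintro ⟨y, k, hk⟩
    rw [AddMonoidHom.mem_ker] at hk
    refine Prod.ext ?_ (Subtype.ext ?_)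
    · simp [h, hk]
    · simp [h, hk]
  map_add' x y := by
    refine Prod.ext ?_ (Subtype.ext ?_)
    · simp
    · simp only [map_add]
      change _ = (x - σ (τ x)) + (y - σ (τ y))
      abel

theorem reid_D_prod : InReid (AddCommGrpCat.of (AddCommGrpCat.of D × AddCommGrpCat.of tauG.ker)) :=
  reid_iso (G := AddCommGrpCat.of (DirectSum ℕ (fun t => AddCommGrpCat.of (V t))))
    (retractIso sigma tauG tauG_sigma) (reid_sum _ fun t => reid_V t)

end Pool.Agent.H39.Reid
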