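import Mathlib

/-!
Separation lemmas for homomorphisms defined on the group of all integer sequences.
-/

namespace Pool.Agent.H39.Reid

/-- No nonzero element, and no power-of-two multiple of it, is divisible by all powers of two. -/
def Red (X : Type) [AddCommGroup X] : Prop :=
  ∀ x : X, x ≠ 0 → ∀ h : ℕ, ∃ H : ℕ, ∀ H' ≥ H, ∀ y : X, (2 ^ H' : ℤ) • y ≠ (2 ^ h : ℤ) • x

theorem red_of_inj {X Y : Type} [AddCommGroup X] [AddCommGroup Y] (f : X →+ Y)
    (hf : Function.Injective f) (hY : Red Y) : Red X := by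
  intro x hx h
  obtain ⟨H, hH⟩ := hY (f x) (by rwa [Ne, map_eq_zero_iff f hf]) h
  refine ⟨H, fun H' hH' y hy => hH H' hH' (f y) ?_⟩
  rw [← map_zsmul, hy, map_zsmul]

theorem red_pi (α : Type) : Red (α → ℤ) := by
  intro x hx h
  obtain ⟨a, ha⟩ := Function.ne_iff.1 hx
  refine ⟨h + (x a).natAbs, fun H' hH' y hy => ha ?_⟩
  have h1 : (2 ^ H' : ℤ) * y a = 2 ^ h * x a := by
    simpa using congrFun hy a
  have h2 : (2 : ℤ) ^ (h + (x a).natAbs) ∣ 2 ^ h * x a := by
    rw [← h1]
    exact Dvd.dvd.mul_right (pow_dvd_pow _ hH') _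
  rw [pow_add] at h2
  have h3 : (2 : ℤ) ^ (x a).natAbs ∣ x a :=
    (mul_dvd_mul_iff_left (by positivity)).1 h2
  have h4 : (2 : ℕ) ^ (x a).natAbs ∣ (x a).natAbs := by
    have := Int.natAbs_dvd_natAbs.2 h3
    simpa [Int.natAbs_pow] using this
  by_contra h5
  have h6 : 0 < (x a).natAbs := Int.natAbs_pos.2 h5
  exact absurd (Nat.le_of_dvd h6 h4) (not_le.2 (Nat.lt_two_pow_self))

theorem decomp {X : Type} [AddCommGroup X] (Θ : (ℕ → ℤ) →+ X) (a : ℕ → ℤ) (N : ℕ) (c : ℤ)
    (hc : ∀ l ≥ N, c ∣ a l) :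
    ∃ y, Θ a = ∑ l ∈ Finset.range N, a l • Θ (Pi.single l 1) + c • y := by
  classical
  choose! b hb using hc
  refine ⟨Θ (fun l => if N ≤ l then b l else 0), ?_⟩
  have h1 : a = ∑ l ∈ Finset.range N, a l • (Pi.single l (1 : ℤ) : ℕ → ℤ)
      + c • (fun l => if N ≤ l then b l else 0) := by
    funext j
    simp only [Pi.add_apply, Finset.sum_apply, Pi.smul_apply, smul_eq_mul]
    by_cases hj : N ≤ j
    · rw [if_pos hj, Finset.sum_eq_zero, zero_add, hb j hj]
      intro l hl
      rw [Finset.mem_range] at hl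
      rw [Pi.single_apply, if_neg (by omega), mul_zero]
    · rw [if_neg hj, mul_zero, add_zero, Finset.sum_eq_single j]
      · rw [Pi.single_eq_same, mul_one]
      · intro l _ hl
        rw [Pi.single_apply, if_neg (Ne.symm hl), mul_zero]
      · intro h
        exact absurd (Finset.mem_range.2 (not_le.1 hj)) h
  conv_lhs => rw [h1]
  rw [map_add, map_sum, map_zsmul]
  simp only [map_zsmul]

theorem exists_h (b : ℕ → ℕ → ℕ) : ∃ h : ℕ → ℕ, StrictMono h ∧ ∀ n, b n (h n) ≤ h (n + 1) := by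
  refine ⟨fun n => Nat.rec 0 (fun n hn => max (hn + 1) (b n hn)) n, ?_, ?_⟩
  · refine strictMono_nat_of_lt_succ fun n => ?_
    exact lt_of_lt_of_le (Nat.lt_succ_self _) (le_max_left _ _)
  · intro n
    exact le_max_right _ _

/-- The vector with entries `2 ^ h n` at the places where `a` is true. -/
def vec (h : ℕ → ℕ) (a : ℕ → Bool) : ℕ → ℤ := fun n => if a n then 2 ^ h n else 0

theorem sepAux {X : Type} [AddCommGroup X] (hX : Red X) (f : ℕ → (ℕ → ℤ) →+ X)
    (hf : ∀ m n, m ≤ n → f m (Pi.single n 1) ≠ 0) :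
    ∃ h : ℕ → ℕ, ∀ (m : ℕ) (a a' : ℕ → Bool), a ≠ a' → (∀ l < m, a l = a' l) →
      f m (vec h a) ≠ f m (vec h a') := by
  classical
  have h1 : ∀ m n h : ℕ, ∃ H : ℕ, m ≤ n → ∀ H' ≥ H, ∀ y : X,
      (2 ^ H' : ℤ) • y ≠ (2 ^ h : ℤ) • f m (Pi.single n 1) := by
    intro m n h
    by_cases hmn : m ≤ n
    · obtain ⟨H, hH⟩ := hX _ (hf m n hmn) h
      exact ⟨H, fun _ => hH⟩
    · exact ⟨0, fun h => absurd h hmn⟩
  choose H hH using h1
  obtain ⟨h, hmono, hb⟩ := exists_h (fun n hn => (Finset.range (n + 1)).sup (fun m => H m n hn))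
  have hH2 : ∀ m n, m ≤ n → ∀ y : X,
      (2 ^ h (n + 1) : ℤ) • y ≠ (2 ^ h n : ℤ) • f m (Pi.single n 1) := by
    intro m n hmn y
    refine hH m n (h n) hmn _ (le_trans ?_ (hb n)) y
    exact Finset.le_sup (f := fun m => H m n (h n)) (Finset.mem_range.2 (by omega))
  refine ⟨h, fun m a a' hne hpre heq => ?_⟩
  obtain ⟨n, hn, hmin⟩ : ∃ n, a n ≠ a' n ∧ ∀ l < n, a l = a' l := by
    have hex : ∃ n, a n ≠ a' n := Function.ne_iff.1 hne
    refine ⟨Nat.find hex, Nat.find_spec hex, fun l hl => ?_⟩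
    exact not_not.1 (Nat.find_min hex hl)
  have hmn : m ≤ n := by
    by_contra hlt
    exact hn (hpre n (not_le.1 hlt))
  obtain ⟨y, hy⟩ := decomp (f m) (vec h a - vec h a') (n + 1) (2 ^ h (n + 1)) (by
    intro l hl
    have h2 : (2 : ℤ) ^ h (n + 1) ∣ 2 ^ h l := pow_dvd_pow _ (hmono.monotone hl)
    simp only [vec, Pi.sub_apply]
    split_ifs <;> simp [h2])
  rw [map_sub, heq, sub_self, Finset.sum_range_succ, Finset.sum_eq_zero, zero_add] at hy
  · have h3 : (vec h a - vec h a') n = 2 ^ h n ∨ (vec h a - vec h a') n = -2 ^ h n := by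
      simp only [vec, Pi.sub_apply]
      cases h4 : a n <;> cases h5 : a' n <;> simp_all
    rcases h3 with h3 | h3
    · refine hH2 m n hmn (-y) ?_
      rw [h3] at hy
      rw [smul_neg]
      exact (eq_neg_of_add_eq_zero_left hy.symm).symm
    · refine hH2 m n hmn y ?_
      rw [h3, neg_smul] at hy
      have := hy.symm
      rw [neg_add_eq_zero] at this
      exact this.symm
  · intro l hl
    rw [Finset.mem_range] at hl
    have h6 : (vec h a - vec h a') l = 0 := by
      simp only [vec, Pi.sub_apply, hmin l hl, sub_self]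
    rw [h6, zero_smul]

theorem not_countable_seq : ¬ Countable (ℕ → Bool) := by
  intro h
  have h1 : Countable (Set ℕ) := by
    classical
    refine Function.Injective.countable (f := fun (s : Set ℕ) (n : ℕ) => decide (n ∈ s)) ?_
    intro s t hst
    ext n
    simpa using congrFun hst n
  obtain ⟨g, hg⟩ := exists_surjective_nat (Set ℕ)
  exact Function.cantor_surjective g hg

/-- A homomorphism whose values lie in a countable set kills some unit vector. -/
theorem slender {X : Type} [AddCommGroup X] (hX : Red X) (f : (ℕ → ℤ) →+ X)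
    (S : Set X) (hS : S.Countable) (hfS : ∀ a, f a ∈ S) : ∃ n, f (Pi.single n 1) = 0 := by
  by_contra hne
  push Not at hne
  obtain ⟨h, hh⟩ := sepAux hX (fun _ => f) (fun _ n _ => hne n)
  have : Countable S := hS.to_subtype
  refine not_countable_seq (Function.Injective.countable
    (f := fun a : ℕ → Bool => (⟨f (vec h a), hfS _⟩ : S)) ?_)
  intro a a' haa
  by_contra hne'
  exact hh 0 a a' hne' (fun l hl => absurd hl (Nat.not_lt_zero _)) (Subtype.ext_iff.1 haa)

/-- If every element of `G` lies in one of the increasing kernels of `f m`, then along a summable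
sequence some member `x n` lies in the kernel of `f n`. -/
theorem lemmaP {G X : Type} [AddCommGroup G] [AddCommGroup X] (hX : Red X) (f : ℕ → G →+ X)
    (hmono : ∀ m g, f m g = 0 → f (m + 1) g = 0) (hex : ∀ g, ∃ m, f m g = 0)
    (θ : (ℕ → ℤ) →+ G) : ∃ n, f n (θ (Pi.single n 1)) = 0 := by
  by_contra hne
  push Not at hne
  have hmono' : ∀ m n, m ≤ n → ∀ g, f m g = 0 → f n g = 0 := by
    intro m n hmn
    induction n, hmn using Nat.le_induction with
    | base => exact fun g h => h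
    | succ n _ ih => exact fun g h => hmono n g (ih g h)
  obtain ⟨h, hh⟩ := sepAux hX (fun m => (f m).comp θ)
    (fun m n hmn h0 => hne n (hmono' m n hmn _ h0))
  choose M hM using hex
  refine not_countable_seq (Function.Injective.countable
    (f := fun a : ℕ → Bool => (⟨M (θ (vec h a)), fun l => a l⟩ : (Σ m : ℕ, (Fin m → Bool)))) ?_)
  intro a a' haa
  by_contra hne'
  have h1 : M (θ (vec h a)) = M (θ (vec h a')) := congrArg Sigma.fst haa
  have h2 : ∀ l < M (θ (vec h a)), a l = a' l := by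
    intro l hl
    rw [Sigma.mk.inj_iff] at haa
    obtain ⟨_, h3⟩ := haa
    have h4 : ∀ (p q : ℕ) (hpq : p = q) (u : Fin p → Bool) (v : Fin q → Bool), u ≍ v →
        ∀ (l : ℕ) (hp : l < p) (hq : l < q), u ⟨l, hp⟩ = v ⟨l, hq⟩ := by
      rintro p q rfl u v huv l hp hq
      rw [eq_of_heq huv]
    exact h4 _ _ h1 _ _ h3 l hl (h1 ▸ hl)
  refine hh (M (θ (vec h a))) a a' hne' h2 ?_
  simp only [AddMonoidHom.comp_apply]
  rw [hM (θ (vec h a)), h1, hM (θ (vec h a'))]

end Pool.Agent.H39.Reid
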