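import Pool.Agent.H39.Reid.QProp

/-!
The concrete system: integer valued functions on blocks of words.
-/

namespace Pool.Agent.H39.Reid

/-- Indices: a block `(i, k)` and a word of natural numbers, last letter first. -/
abbrev B := ℕ × ℕ × List ℕ

abbrev M := B → ℤ

/-- The last letter of a word, `i` for the empty word. -/
def lastL (i : ℕ) : List ℕ → ℕ
  | [] => i
  | v :: _ => v

/-- Words `i ≤ v₀ ≤ v₁ ≤ ...`. -/
def validL (i : ℕ) : List ℕ → Prop
  | [] => True
  | v :: w => lastL i w ≤ v ∧ validL i w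

/-- The weight of the letter `v` at position `l` in a block with parameter `k`. -/
def wt (k l v : ℕ) : ℤ := if l < k then 2 ^ ((2 * k + 1 - v).choose (k - l)) else 1

def nxt (k m v : ℕ) : ℕ := if m < k then v + 1 else v

theorem le_nxt (k m v : ℕ) : v ≤ nxt k m v := by
  unfold nxt
  split_ifs <;> omega

theorem nxt_le (k m v : ℕ) : nxt k m v ≤ v + 1 := by
  unfold nxt
  split_ifs <;> omega

theorem wt_nxt (k l v : ℕ) : wt k (l + 1) (nxt k (l + 1) v) * wt k l (nxt k (l + 1) v) =
    wt k l v := by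
  unfold wt nxt
  by_cases h : l + 1 < k
  · rw [if_pos h, if_pos h, if_pos (by omega), if_pos (by omega), ← pow_add]
    congr 1
    obtain ⟨r, hr⟩ : ∃ r, k - (l + 1) = r + 1 := ⟨k - (l + 1) - 1, by omega⟩
    have hr' : k - l = r + 1 + 1 := by omega
    rw [hr, hr']
    rcases Nat.lt_or_ge (2 * k) v with hv | hv
    · have h1 : 2 * k + 1 - (v + 1) = 0 := by omega
      have h2 : 2 * k + 1 - v = 0 := by omega
      rw [h1, h2]
      simp
    · have h1 : 2 * k + 1 - (v + 1) = 2 * k - v := by omega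
      have h2 : 2 * k + 1 - v = (2 * k - v) + 1 := by omega
      rw [h1, h2, Nat.choose_succ_succ]
  · rw [if_neg h, if_neg h, one_mul]

theorem wt_ne_zero (k l v : ℕ) : wt k l v ≠ 0 := by
  unfold wt
  split_ifs <;> simp

theorem two_dvd_wt (k l v : ℕ) (hl : l < k) (hv : v ≤ k + 1) : (2 : ℤ) ∣ wt k l v := by
  unfold wt
  rw [if_pos hl]
  refine dvd_pow_self 2 ?_
  exact Nat.pos_iff_ne_zero.1 (Nat.choose_pos (by omega))

def phiF (x : M) : M := fun β => match β.2.2 with
  | [] => 0
  | v :: w => if lastL β.1 w ≤ v then wt β.2.1 w.length v * x (β.1, β.2.1, w) else 0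

def sF (y : M) : M := fun β => match β.2.2 with
  | [] => 0
  | v :: w => if lastL β.1 w ≤ v then
      y (β.1, β.2.1, nxt β.2.1 (w.length + 1) v :: nxt β.2.1 (w.length + 1) v :: w) else 0

theorem phiF_nil (x : M) (i k : ℕ) : phiF x (i, k, []) = 0 := rfl

theorem phiF_cons (x : M) (i k v : ℕ) (w : List ℕ) : phiF x (i, k, v :: w) =
    if lastL i w ≤ v then wt k w.length v * x (i, k, w) else 0 := rfl

theorem sF_nil (x : M) (i k : ℕ) : sF x (i, k, []) = 0 := rfl

theorem sF_cons (x : M) (i k v : ℕ) (w : List ℕ) : sF x (i, k, v :: w) =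
    if lastL i w ≤ v then
      x (i, k, nxt k (w.length + 1) v :: nxt k (w.length + 1) v :: w) else 0 := rfl

theorem sF_phiF_phiF (x : M) : sF (phiF (phiF x)) = phiF x := by
  funext ⟨i, k, w⟩
  cases w with
  | nil => rfl
  | cons v w =>
    rw [sF_cons, phiF_cons x i k v w]
    by_cases h : lastL i w ≤ v
    · have h' : lastL i (nxt k (w.length + 1) v :: w) ≤ nxt k (w.length + 1) v := le_refl _
      rw [if_pos h, if_pos h, phiF_cons, if_pos h', phiF_cons,
        if_pos (le_trans h (le_nxt _ _ _)), ← mul_assoc, List.length_cons, wt_nxt]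
    · rw [if_neg h, if_neg h]

def phi : AddMonoid.End M where
  toFun := phiF
  map_zero' := by
    funext ⟨i, k, w⟩
    cases w with
    | nil => rfl
    | cons v w => simp [phiF_cons]
  map_add' := by
    intro x y
    funext ⟨i, k, w⟩
    cases w with
    | nil => rfl
    | cons v w =>
      simp only [phiF_cons, Pi.add_apply]
      split_ifs <;> ring

def s : AddMonoid.End M where
  toFun := sF
  map_zero' := by
    funext ⟨i, k, w⟩
    cases w with
    | nil => rfl
    | cons v w => simp [sF_cons]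
  map_add' := by
    intro x y
    funext ⟨i, k, w⟩
    cases w with
    | nil => rfl
    | cons v w =>
      simp only [sF_cons, Pi.add_apply]
      split_ifs <;> ring

theorem phi_apply (x : M) : phi x = phiF x := rfl

theorem s_apply (x : M) : s x = sF x := rfl

theorem End_mul (f g : AddMonoid.End M) (z : M) : (f * g) z = f (g z) := rfl

theorem s_phi_phi : s * phi * phi = phi := by
  ext1 x
  exact sF_phiF_phiF x

theorem s_pow_phi_pow (j : ℕ) : s ^ j * phi ^ (j + 1) = phi := by
  induction j with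
  | zero => simp
  | succ j ih =>
    calc s ^ (j + 1) * phi ^ (j + 1 + 1) = s ^ j * (s * phi * phi) * phi ^ j := by
          rw [pow_succ s j, pow_succ' phi (j + 1), pow_succ' phi j]
          simp only [mul_assoc]
      _ = s ^ j * phi ^ (j + 1) := by rw [s_phi_phi, mul_assoc, ← pow_succ']
      _ = phi := ih

/-- The last letter, as a function on indices. -/
def lastB (β : B) : ℕ := lastL β.1 β.2.2

/-- Functions on valid words of length `m`, with finitely many nonzero values on the words with a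
given last letter. -/
def V (m : ℕ) : AddSubgroup M where
  carrier := {x | (∀ β, x β ≠ 0 → validL β.1 β.2.2 ∧ β.2.2.length = m) ∧
    ∀ n, {β | lastB β ≤ n ∧ x β ≠ 0}.Finite}
  zero_mem' := by
    refine ⟨fun β h => absurd rfl h, fun n => ?_⟩
    convert Set.finite_empty
    ext β
    simp
  add_mem' := by
    rintro x y ⟨hx, hx'⟩ ⟨hy, hy'⟩
    refine ⟨fun β h => ?_, fun n => ?_⟩
    · by_cases h1 : x β = 0
      · refine hy β fun h2 => h ?_
        rw [Pi.add_apply, h1, h2, add_zero]
      · exact hx β h1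
    · refine ((hx' n).union (hy' n)).subset ?_
      rintro β ⟨hn, h⟩
      by_cases h1 : x β = 0
      · refine Or.inr ⟨hn, fun h2 => h ?_⟩
        rw [Pi.add_apply, h1, h2, add_zero]
      · exact Or.inl ⟨hn, h1⟩
  neg_mem' := by
    rintro x ⟨hx, hx'⟩
    refine ⟨fun β h => hx β (by simpa using h), fun n => ?_⟩
    refine (hx' n).subset ?_
    rintro β ⟨hn, h⟩
    exact ⟨hn, by simpa using h⟩

theorem mem_V {m : ℕ} {x : M} : x ∈ V m ↔
    (∀ β, x β ≠ 0 → validL β.1 β.2.2 ∧ β.2.2.length = m) ∧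
      ∀ n, {β | lastB β ≤ n ∧ x β ≠ 0}.Finite := Iff.rfl

theorem phi_mem {m : ℕ} {x : M} (hx : x ∈ V m) : phi x ∈ V (m + 1) := by
  obtain ⟨h1, h2⟩ := mem_V.1 hx
  rw [mem_V, phi_apply]
  constructor
  · rintro ⟨i, k, w⟩ h
    cases w with
    | nil => exact absurd rfl h
    | cons v w =>
      rw [phiF_cons] at h
      split_ifs at h with h3
      · obtain ⟨h4, h5⟩ := h1 (i, k, w) (right_ne_zero_of_mul h)
        exact ⟨⟨h3, h4⟩, by simpa using h5⟩
      · exact absurd rfl h
  · intro n
    refine (((h2 n).prod (Set.finite_Iic n)).image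
      (fun p : B × ℕ => ((p.1.1, p.1.2.1, p.2 :: p.1.2.2) : B))).subset ?_
    rintro ⟨i, k, w⟩ ⟨hn, h⟩
    cases w with
    | nil => exact absurd rfl h
    | cons v w =>
      rw [phiF_cons] at h
      split_ifs at h with h3
      · refine ⟨((i, k, w), v), ⟨⟨le_trans h3 hn, right_ne_zero_of_mul h⟩, hn⟩, rfl⟩
      · exact absurd rfl h

theorem s_mem {m : ℕ} {x : M} (hx : x ∈ V (m + 1)) : s x ∈ V m := by
  obtain ⟨h1, h2⟩ := mem_V.1 hx
  rw [mem_V, s_apply]
  constructor
  · rintro ⟨i, k, w⟩ h
    cases w with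
    | nil => exact absurd rfl h
    | cons v w =>
      rw [sF_cons] at h
      split_ifs at h with h3
      · obtain ⟨h4, h5⟩ := h1 _ h
        exact ⟨⟨h3, h4.2.2⟩, by simpa using h5⟩
      · exact absurd rfl h
  · intro n
    refine (((h2 (n + 1)).prod (Set.finite_Iic n)).image
      (fun p : B × ℕ => ((p.1.1, p.1.2.1, p.2 :: p.1.2.2.tail.tail) : B))).subset ?_
    rintro ⟨i, k, w⟩ ⟨hn, h⟩
    cases w with
    | nil => exact absurd rfl h
    | cons v w =>
      rw [sF_cons] at h
      split_ifs at h with h3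
      · refine ⟨((i, k, nxt k (w.length + 1) v :: nxt k (w.length + 1) v :: w), v),
          ⟨⟨?_, h⟩, hn⟩, rfl⟩
        exact le_trans (nxt_le _ _ _) (Nat.succ_le_succ hn)
      · exact absurd rfl h

theorem phi_pow_mem {m : ℕ} (j : ℕ) {x : M} (hx : x ∈ V m) : (phi ^ j) x ∈ V (m + j) := by
  induction j with
  | zero => simpa using hx
  | succ j ih =>
    rw [pow_succ']
    exact phi_mem ih

theorem s_pow_mem {m : ℕ} (j : ℕ) {x : M} (hx : x ∈ V (m + j)) : (s ^ j) x ∈ V m := by
  induction j generalizing x with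
  | zero => simpa using hx
  | succ j ih =>
    rw [pow_succ]
    exact ih (s_mem hx)

/-- The element of the colimit represented by `z`, as a sequence. -/
def iota (n : ℕ) : M →+ (ℕ → M) where
  toFun z := fun t => (s ^ (n + 1 - t) * phi ^ (max 1 (t - n))) z
  map_zero' := by
    funext t
    rw [map_zero]
    rfl
  map_add' := by
    intro x y
    funext t
    rw [map_add]
    rfl

theorem iota_apply (n t : ℕ) (z : M) :
    iota n z t = (s ^ (n + 1 - t) * phi ^ (max 1 (t - n))) z := rfl

theorem iota_lt {n t : ℕ} (h : n < t) (z : M) : iota n z t = (phi ^ (t - n)) z := by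
  rw [iota_apply, Nat.sub_eq_zero_of_le h, pow_zero, one_mul, max_eq_right (by omega)]

theorem iota_le {n t : ℕ} (h : t ≤ n) (z : M) : iota n z t = (s ^ (n + 1 - t)) (phi z) := by
  rw [iota_apply, max_eq_left (by omega), pow_one]
  rfl

theorem iota_next (n : ℕ) (z : M) : iota n z (n + 1) = phi z := by
  rw [iota_lt (Nat.lt_succ_self n), Nat.succ_sub (le_refl n), Nat.sub_self, pow_one]

theorem iota_self (n : ℕ) (z : M) : iota n z n = s (phi z) := by
  rw [iota_le le_rfl, Nat.add_sub_cancel_left, pow_one]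

theorem iota_phi (n : ℕ) (z : M) : iota (n + 1) (phi z) = iota n z := by
  funext t
  rcases Nat.lt_or_ge n t with h | h
  · rcases Nat.lt_or_ge (n + 1) t with h' | h'
    · rw [iota_lt h, iota_lt h', ← End_mul, ← pow_succ]
      congr 2
      omega
    · have : t = n + 1 := by omega
      subst this
      rw [iota_self, iota_next]
      exact sF_phiF_phiF z
  · rw [iota_le h, iota_le (by omega)]
    have h1 : n + 1 + 1 - t = (n + 1 - t) + 1 := by omega
    rw [h1, pow_succ, End_mul]
    congr 1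
    exact sF_phiF_phiF z

theorem iota_phi_pow (n j : ℕ) (z : M) : iota (n + j) ((phi ^ j) z) = iota n z := by
  induction j with
  | zero => rfl
  | succ j ih =>
    rw [pow_succ', End_mul, ← add_assoc, iota_phi, ih]

theorem iota_mem {n : ℕ} {z : M} (hz : z ∈ V n) (t : ℕ) : iota n z t ∈ V t := by
  rcases Nat.lt_or_ge n t with h | h
  · rw [iota_lt h]
    have := phi_pow_mem (t - n) hz
    rwa [Nat.add_sub_cancel' h.le] at this
  · rw [iota_le h]
    refine s_pow_mem _ ?_
    have h1 : t + (n + 1 - t) = n + 1 := by omega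
    rw [h1]
    exact phi_mem hz

/-- The counterexample. -/
def D : AddSubgroup (ℕ → M) where
  carrier := {y | ∃ n, ∃ z ∈ V n, iota n z = y}
  zero_mem' := ⟨0, 0, zero_mem _, map_zero _⟩
  add_mem' := by
    rintro _ _ ⟨n, z, hz, rfl⟩ ⟨n', z', hz', rfl⟩
    refine ⟨n + n', (phi ^ n') z + (phi ^ n) z', add_mem (phi_pow_mem _ hz) ?_, ?_⟩
    · rw [add_comm n n']
      exact phi_pow_mem _ hz'
    · rw [map_add, iota_phi_pow, add_comm n n', iota_phi_pow]
  neg_mem' := by
    rintro _ ⟨n, z, hz, rfl⟩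
    exact ⟨n, -z, neg_mem hz, map_neg _ _⟩

theorem mem_D {y : ℕ → M} : y ∈ D ↔ ∃ n, ∃ z ∈ V n, iota n z = y := Iff.rfl

theorem D_apply_mem {y : ℕ → M} (hy : y ∈ D) (t : ℕ) : y t ∈ V t := by
  obtain ⟨n, z, hz, rfl⟩ := mem_D.1 hy
  exact iota_mem hz t

/-- Projection to the `m`-th term. -/
def tau (m : ℕ) : D →+ V m where
  toFun y := ⟨y.1 m, D_apply_mem y.2 m⟩
  map_zero' := rfl
  map_add' _ _ := rfl

theorem tau_apply (m : ℕ) (y : D) : (tau m y : M) = y.1 m := rfl

/-- The canonical map of the `m`-th group to the colimit. -/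
def inc (m : ℕ) : V m →+ D where
  toFun z := ⟨iota m z, m, z.1, z.2, rfl⟩
  map_zero' := Subtype.ext (map_zero (iota m))
  map_add' x y := Subtype.ext (map_add (iota m) x.1 y.1)

theorem inc_apply (m : ℕ) (z : V m) : (inc m z : ℕ → M) = iota m z := rfl

theorem tau_inc_self (m : ℕ) (z : V m) : (tau m (inc m z) : M) = sF (phiF z) := by
  rw [tau_apply, inc_apply, iota_self]
  rfl

theorem D_mono (m : ℕ) (y : D) (h : inc m (tau m y) = y) :
    inc (m + 1) (tau (m + 1) y) = y := by
  refine Subtype.ext ?_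
  rw [inc_apply, tau_apply]
  have h1 : iota m (y.1 m) = y.1 := congrArg Subtype.val h
  conv_lhs => rw [← h1]
  rw [iota_next, iota_phi, h1]

theorem D_ex (y : D) : ∃ m, inc m (tau m y) = y := by
  obtain ⟨n, z, hz, h⟩ := mem_D.1 y.2
  refine ⟨n + 1, Subtype.ext ?_⟩
  rw [inc_apply, tau_apply]
  conv_lhs => rw [← h]
  rw [iota_next, iota_phi, h]

end Pool.Agent.H39.Reid
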